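import Pool.Agent.Helper58.Qip.Stmts

/-!
# MP_5bf1c5_pr: packet C
-/

open Filter Topology

namespace Pool.Agent.Helper33.Qip

/-- one dyadic block. -/
theorem block (H e : ℕ → ℝ) (hH : Monotone H) (he : ∀ k, 0 ≤ e k) (i : ℕ) :
    ∑ j ∈ Finset.Ico (2 ^ i) (2 ^ (i + 1)), √(H (j + 1) - H j) * √(e (j + 1)) ≤
      √(H (2 ^ (i + 1)) - H (2 ^ i)) * √(∑ j ∈ Finset.range (2 ^ (i + 1) + 1), e j) := by
  have hle : 2 ^ i ≤ 2 ^ (i + 1) := Nat.pow_le_pow_right (by norm_num) (by omega)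
  refine (Real.sum_sqrt_mul_sqrt_le _ (fun j => sub_nonneg.2 (hH (Nat.le_succ j)))
    (fun j => he _)).trans ?_
  have h1 : ∑ j ∈ Finset.Ico (2 ^ i) (2 ^ (i + 1)), (H (j + 1) - H j) =
      H (2 ^ (i + 1)) - H (2 ^ i) := by
    rw [Finset.sum_Ico_eq_sub _ hle, Finset.sum_range_sub, Finset.sum_range_sub]
    ring
  have h2 : ∑ j ∈ Finset.Ico (2 ^ i) (2 ^ (i + 1)), e (j + 1) ≤
      ∑ j ∈ Finset.range (2 ^ (i + 1) + 1), e j := by
    rw [Finset.sum_range_succ']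
    have h3 : ∑ j ∈ Finset.Ico (2 ^ i) (2 ^ (i + 1)), e (j + 1) ≤
        ∑ j ∈ Finset.range (2 ^ (i + 1)), e (j + 1) := by
      refine Finset.sum_le_sum_of_subset_of_nonneg ?_ fun j _ _ => he _
      intro j hj
      rw [Finset.mem_Ico] at hj
      rw [Finset.mem_range]
      exact hj.2
    linarith [he 0]
  rw [h1]
  exact mul_le_mul_of_nonneg_left (Real.sqrt_le_sqrt h2) (Real.sqrt_nonneg _)

/-- summing the blocks. -/
theorem sum_blocks (w : ℕ → ℝ) (i₀ I : ℕ) :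
    ∑ j ∈ Finset.range (2 ^ (i₀ + I)), w j = ∑ j ∈ Finset.range (2 ^ i₀), w j +
      ∑ i ∈ Finset.range I, ∑ j ∈ Finset.Ico (2 ^ (i₀ + i)) (2 ^ (i₀ + i + 1)), w j := by
  induction I with
  | zero => simp
  | succ I ih =>
    have hle : 2 ^ (i₀ + I) ≤ 2 ^ (i₀ + I + 1) := Nat.pow_le_pow_right (by norm_num) (by omega)
    have h1 := Finset.sum_Ico_eq_sub w hle
    rw [Finset.sum_range_succ, h1, show i₀ + (I + 1) = i₀ + I + 1 by ring]
    linarith

theorem sqrt_two_gt : (1.4 : ℝ) < √2 := by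
  rw [show (1.4 : ℝ) = √(1.4 ^ 2) by rw [Real.sqrt_sq (by norm_num)]]
  exact Real.sqrt_lt_sqrt (by norm_num) (by norm_num)

theorem sqrt_two_pow (i : ℕ) : √((2 : ℝ) ^ i) = √2 ^ i := by
  rw [Real.sqrt_eq_rpow, Real.sqrt_eq_rpow, ← Real.rpow_natCast, ← Real.rpow_mul (by norm_num),
    ← Real.rpow_natCast, ← Real.rpow_mul (by norm_num), mul_comm]

theorem geom (I : ℕ) : ∑ i ∈ Finset.range I, √2 ^ i ≤ 2.5 * √2 ^ I := by
  induction I with
  | zero => simp; norm_num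
  | succ I ih =>
    rw [Finset.sum_range_succ, pow_succ]
    have h1 := sqrt_two_gt
    have h2 : 0 < √2 ^ I := by positivity
    nlinarith

theorem sqrt_block (C : ℝ) (hC : 0 ≤ C) (i : ℕ) :
    √(C * ((2 : ℝ) ^ (i + 1) + 1)) ≤ 2 * √C * √2 ^ i := by
  rw [Real.sqrt_mul hC]
  have h1 : √((2 : ℝ) ^ (i + 1) + 1) ≤ 2 * √2 ^ i := by
    rw [← sqrt_two_pow]
    rw [show 2 * √((2 : ℝ) ^ i) = √(4 * 2 ^ i) by
      rw [Real.sqrt_mul (by norm_num), show (4 : ℝ) = 2 ^ 2 by norm_num,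
        Real.sqrt_sq (by norm_num)]]
    apply Real.sqrt_le_sqrt
    have : (1 : ℝ) ≤ 2 ^ i := one_le_pow₀ (by norm_num)
    rw [pow_succ]
    linarith
  calc √C * √((2 : ℝ) ^ (i + 1) + 1) ≤ √C * (2 * √2 ^ i) :=
        mul_le_mul_of_nonneg_left h1 (Real.sqrt_nonneg _)
    _ = 2 * √C * √2 ^ i := by ring

/-- the tangent line bound for the square root. -/
theorem sqrt_tangent (c t : ℝ) (hc : 0 < c) (ht : 0 ≤ c + t) :
    √(c + t) ≤ √c + t / (2 * √c) := by
  have h1 : 0 < √c := Real.sqrt_pos.2 hc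
  have h2 : √c * √c = c := Real.mul_self_sqrt hc.le
  have h3 : √(c + t) * √(c + t) = c + t := Real.mul_self_sqrt ht
  have h4 : √c + t / (2 * √c) = (2 * c + t) / (2 * √c) := by
    field_simp
    nlinarith
  rw [h4, le_div_iff₀ (by positivity)]
  nlinarith [sq_nonneg (√(c + t) - √c)]

theorem abel (u : ℕ → ℝ) (hu : ∀ i, 0 ≤ u i) (I : ℕ) :
    ∑ i ∈ Finset.range I, √2 ^ i * (u (i + 1) - u i) ≤ √2 ^ I * u I := by
  induction I with
  | zero => simpa using hu 0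
  | succ I ih =>
    rw [Finset.sum_range_succ, pow_succ]
    have h1 := sqrt_two_gt
    have h2 : 0 < √2 ^ I := by positivity
    have h3 : 0 ≤ √2 ^ I * u (I + 1) := mul_nonneg h2.le (hu _)
    nlinarith

/-- an inequality `u ≤ B + d log (A + A' u)` bounds `u`. -/
theorem log_bound (d A A' B u : ℝ) (hd : 0 < d) (hA : 0 < A) (hA' : 0 ≤ A') (hu : 0 ≤ u)
    (h : u ≤ B + d * Real.log (A + A' * u)) :
    u ≤ 2 * (B + A / 2 + d * |Real.log (2 * d * (A' + 1))|) := by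
  set t := 2 * d * (A' + 1) with ht
  have htp : 0 < t := by positivity
  have hy : 0 < A + A' * u := by positivity
  have h1 : Real.log (A + A' * u) ≤ (A + A' * u) / t - 1 + Real.log t := by
    have h2 : Real.log ((A + A' * u) / t) ≤ (A + A' * u) / t - 1 :=
      Real.log_le_sub_one_of_pos (by positivity)
    rw [Real.log_div hy.ne' htp.ne'] at h2
    linarith
  have h3 : d * ((A + A' * u) / t) ≤ A / 2 + u / 2 := by
    rw [ht]
    rw [show d * ((A + A' * u) / (2 * d * (A' + 1))) = (A + A' * u) / (2 * (A' + 1)) by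
      field_simp]
    rw [div_le_iff₀ (by positivity)]
    nlinarith [mul_nonneg hA.le hA']
  have h4 : d * Real.log t ≤ d * |Real.log t| := mul_le_mul_of_nonneg_left (le_abs_self _) hd.le
  have h5 : d * Real.log (A + A' * u) ≤ d * ((A + A' * u) / t - 1 + Real.log t) :=
    mul_le_mul_of_nonneg_left h1 hd.le
  nlinarith

theorem stmtC1 : Pool.Agent.Helper58.Qip.StmtC1 := by
  intro d c C0 C1 C2 C3 H a e hd hc hH ha he hlow hup hab hsum
  have hC3 : 0 ≤ C3 := by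
    have h1 := hsum 0
    simp only [zero_add, Finset.sum_range_one, Nat.cast_zero, mul_one] at h1
    exact (he 0).trans h1
  set c0 := d / 2 * Real.log 2 with hc0
  have hlog2 : 0 < Real.log 2 := Real.log_pos (by norm_num)
  have hc0p : 0 < c0 := by positivity
  let u : ℕ → ℝ := fun i => H (2 ^ i) - i * c0 + C0
  have hu : ∀ i, 0 ≤ u i := by
    intro i
    have h1 := hlow (2 ^ i) Nat.one_le_two_pow
    have h2 : Real.log ((2 ^ i : ℕ) : ℝ) = i * Real.log 2 := by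
      push_cast
      rw [Real.log_pow]
    rw [h2] at h1
    simp only [u, hc0]
    nlinarith
  have hΔ : ∀ i, H (2 ^ (i + 1)) - H (2 ^ i) = c0 + (u (i + 1) - u i) := by
    intro i
    simp only [u]
    push_cast
    ring
  have hΔ0 : ∀ i, 0 ≤ c0 + (u (i + 1) - u i) := by
    intro i
    rw [← hΔ]
    exact sub_nonneg.2 (hH (Nat.pow_le_pow_right (by norm_num) (by omega)))
  set r := √2 with hr
  have hr1 : 1 ≤ r := by have := sqrt_two_gt; linarith
  -- the blocks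
  have hblock : ∀ i, ∑ j ∈ Finset.Ico (2 ^ i) (2 ^ (i + 1)), √(H (j + 1) - H j) * √(e (j + 1)) ≤
      2 * √C3 * √c0 * r ^ i + √C3 / √c0 * (r ^ i * (u (i + 1) - u i)) := by
    intro i
    refine (block H e hH he i).trans ?_
    have h1 : √(∑ j ∈ Finset.range (2 ^ (i + 1) + 1), e j) ≤ 2 * √C3 * r ^ i := by
      refine (Real.sqrt_le_sqrt (hsum (2 ^ (i + 1)))).trans ?_
      have := sqrt_block C3 hC3 i
      push_cast
      exact this
    rw [hΔ]
    have h2 := sqrt_tangent c0 (u (i + 1) - u i) hc0p (hΔ0 i)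
    have h3 : 0 < √c0 := Real.sqrt_pos.2 hc0p
    calc √(c0 + (u (i + 1) - u i)) * √(∑ j ∈ Finset.range (2 ^ (i + 1) + 1), e j)
        ≤ √(c0 + (u (i + 1) - u i)) * (2 * √C3 * r ^ i) :=
          mul_le_mul_of_nonneg_left h1 (Real.sqrt_nonneg _)
      _ ≤ (√c0 + (u (i + 1) - u i) / (2 * √c0)) * (2 * √C3 * r ^ i) :=
          mul_le_mul_of_nonneg_right h2 (by positivity)
      _ = 2 * √C3 * √c0 * r ^ i + √C3 / √c0 * (r ^ i * (u (i + 1) - u i)) := by
          field_simp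
  set T0 := ∑ j ∈ Finset.range (2 ^ 0), √(H (j + 1) - H j) * √(e (j + 1)) with hT0
  have hT0n : 0 ≤ T0 := Finset.sum_nonneg fun j _ => by positivity
  have htot : ∀ I, ∑ j ∈ Finset.range (2 ^ I), √(H (j + 1) - H j) * √(e (j + 1)) ≤
      T0 + 5 * √C3 * √c0 * r ^ I + √C3 / √c0 * (r ^ I * u I) := by
    intro I
    have h1 := sum_blocks (fun j => √(H (j + 1) - H j) * √(e (j + 1))) 0 I
    simp only [zero_add] at h1
    rw [h1, add_assoc]
    refine add_le_add le_rfl ?_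
    calc ∑ i ∈ Finset.range I, ∑ j ∈ Finset.Ico (2 ^ i) (2 ^ (i + 1)),
          √(H (j + 1) - H j) * √(e (j + 1))
        ≤ ∑ i ∈ Finset.range I, (2 * √C3 * √c0 * r ^ i +
            √C3 / √c0 * (r ^ i * (u (i + 1) - u i))) := Finset.sum_le_sum fun i _ => hblock i
      _ = 2 * √C3 * √c0 * ∑ i ∈ Finset.range I, r ^ i +
            √C3 / √c0 * ∑ i ∈ Finset.range I, r ^ i * (u (i + 1) - u i) := by
          rw [Finset.sum_add_distrib, Finset.mul_sum, Finset.mul_sum]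
      _ ≤ 2 * √C3 * √c0 * (2.5 * r ^ I) + √C3 / √c0 * (r ^ I * u I) :=
          add_le_add (mul_le_mul_of_nonneg_left (geom I) (by positivity))
            (mul_le_mul_of_nonneg_left (abel u hu I) (by positivity))
      _ = 5 * √C3 * √c0 * r ^ I + √C3 / √c0 * (r ^ I * u I) := by ring
  -- the bound for `a`
  set A' := c * (√C3 / √c0) with hA'
  set A := 1 + 2 * |C2| + c * T0 + c * (5 * √C3 * √c0) with hA
  have hA'n : 0 ≤ A' := by positivity
  have hAp : 0 < A := by positivity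
  have hrI : ∀ I : ℕ, 1 ≤ r ^ I := fun I => one_le_pow₀ hr1
  have hz : ∀ I, 1 + a (2 ^ I) ≤ r ^ I * (A + A' * u I) := by
    intro I
    have h1 := hab (2 ^ I)
    have h2 : √(((2 ^ I : ℕ) : ℝ) + 1) ≤ 2 * r ^ I := by
      push_cast
      rw [hr, ← sqrt_two_pow]
      rw [show 2 * √((2 : ℝ) ^ I) = √(4 * 2 ^ I) by
        rw [Real.sqrt_mul (by norm_num), show (4 : ℝ) = 2 ^ 2 by norm_num,
          Real.sqrt_sq (by norm_num)]]
      apply Real.sqrt_le_sqrt
      have : (1 : ℝ) ≤ 2 ^ I := one_le_pow₀ (by norm_num)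
      linarith
    have h3 : C2 * √(((2 ^ I : ℕ) : ℝ) + 1) ≤ |C2| * (2 * r ^ I) :=
      (mul_le_mul_of_nonneg_right (le_abs_self _) (Real.sqrt_nonneg _)).trans
        (mul_le_mul_of_nonneg_left h2 (abs_nonneg _))
    have h4 := mul_le_mul_of_nonneg_left (htot I) hc
    have h5 : c * T0 ≤ c * T0 * r ^ I := le_mul_of_one_le_right (by positivity) (hrI I)
    have h6 := hrI I
    calc 1 + a (2 ^ I) ≤ 1 + (|C2| * (2 * r ^ I) + c * (T0 + 5 * √C3 * √c0 * r ^ I +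
          √C3 / √c0 * (r ^ I * u I))) := by linarith
      _ = 1 + c * T0 + r ^ I * (2 * |C2| + c * (5 * √C3 * √c0) + A' * u I) := by
          rw [hA']; ring
      _ ≤ r ^ I + c * T0 * r ^ I + r ^ I * (2 * |C2| + c * (5 * √C3 * √c0) + A' * u I) := by
          linarith
      _ = r ^ I * (A + A' * u I) := by rw [hA]; ring
  have hfin : ∀ I, u I ≤ (C1 + C0) + d * Real.log (A + A' * u I) := by
    intro I
    have h1 := hup (2 ^ I)
    have h2 : 0 < A + A' * u I := by have := hu I; positivity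
    have h3 : Real.log (1 + a (2 ^ I)) ≤ Real.log (r ^ I * (A + A' * u I)) :=
      Real.log_le_log (by have := ha (2 ^ I); linarith) (hz I)
    rw [Real.log_mul (by positivity) h2.ne', Real.log_pow] at h3
    have h4 : Real.log r = Real.log 2 / 2 := by
      rw [hr, Real.log_sqrt (by norm_num)]
    rw [h4] at h3
    have h5 := mul_le_mul_of_nonneg_left h3 hd.le
    have h6 : u I = H (2 ^ I) - I * c0 + C0 := rfl
    have h7 : (I : ℝ) * c0 = d * (I * (Real.log 2 / 2)) := by rw [hc0]; ring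
    rw [h6] at h5 ⊢
    rw [h7] at h5 ⊢
    nlinarith
  refine ⟨c0 + 2 * ((C1 + C0) + A / 2 + d * |Real.log (2 * d * (A' + 1))|), fun i => ?_⟩
  rw [hΔ]
  have h1 := log_bound d A A' (C1 + C0) (u (i + 1)) hd hAp hA'n (hu _) (hfin _)
  have h2 := hu i
  linarith

theorem stmtC2 : Pool.Agent.Helper58.Qip.StmtC2 := by
  refine ⟨20, by norm_num, ?_⟩
  intro K ε H e hK hε hH he hΔ hev
  obtain ⟨n₀, hn₀⟩ := eventually_atTop.1 hev
  -- the blocks
  have hblock : ∀ i, n₀ ≤ i → ∑ j ∈ Finset.Ico (2 ^ i) (2 ^ (i + 1)),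
      √(H (j + 1) - H j) * √(e (j + 1)) ≤ 2 * √(K * ε) * √2 ^ i := by
    intro i hi
    refine (block H e hH he i).trans ?_
    have h0 : n₀ ≤ 2 ^ (i + 1) + 1 := by
      have := Nat.lt_two_pow_self (n := i)
      have h' : 2 ^ i ≤ 2 ^ (i + 1) := Nat.pow_le_pow_right (by norm_num) (by omega)
      omega
    have h1 := hn₀ _ h0
    have h2 : √(H (2 ^ (i + 1)) - H (2 ^ i)) ≤ √K := Real.sqrt_le_sqrt (hΔ i)
    have h3 : √(∑ j ∈ Finset.range (2 ^ (i + 1) + 1), e j) ≤ 2 * √ε * √2 ^ i := by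
      refine (Real.sqrt_le_sqrt h1).trans ?_
      have := sqrt_block ε hε.le i
      push_cast
      exact this
    calc √(H (2 ^ (i + 1)) - H (2 ^ i)) * √(∑ j ∈ Finset.range (2 ^ (i + 1) + 1), e j)
        ≤ √K * (2 * √ε * √2 ^ i) := mul_le_mul h2 h3 (Real.sqrt_nonneg _) (Real.sqrt_nonneg _)
      _ = 2 * √(K * ε) * √2 ^ i := by rw [Real.sqrt_mul hK.le]; ring
  set T := ∑ j ∈ Finset.range (2 ^ n₀), √(H (j + 1) - H j) * √(e (j + 1)) with hT
  have hsq : Tendsto (fun n : ℕ => √(K * ε) * √(n : ℝ)) atTop atTop :=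
    Tendsto.const_mul_atTop (Real.sqrt_pos.2 (mul_pos hK hε))
      (Real.tendsto_sqrt_atTop.comp tendsto_natCast_atTop_atTop)
  filter_upwards [hsq.eventually_ge_atTop T, eventually_ge_atTop (2 ^ n₀)] with n hnT hn
  have hnpos : n ≠ 0 := by
    have : 0 < 2 ^ n₀ := by positivity
    omega
  set m := Nat.log 2 n with hm
  have hm1 : 2 ^ m ≤ n := Nat.pow_log_le_self 2 hnpos
  have hm2 : n < 2 ^ (m + 1) := Nat.lt_pow_succ_log_self (by norm_num) n
  have hmn : n₀ ≤ m := by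
    rw [hm]
    exact Nat.le_log_of_pow_le (by norm_num) hn
  obtain ⟨I, hI⟩ : ∃ I, m + 1 = n₀ + I := ⟨m + 1 - n₀, by omega⟩
  have h1 : ∑ j ∈ Finset.range n, √(H (j + 1) - H j) * √(e (j + 1)) ≤
      ∑ j ∈ Finset.range (2 ^ (n₀ + I)), √(H (j + 1) - H j) * √(e (j + 1)) := by
    rw [← hI]
    exact Finset.sum_le_sum_of_subset_of_nonneg (Finset.range_subset_range.2 hm2.le)
      fun j _ _ => by positivity
  have h2 := sum_blocks (fun j => √(H (j + 1) - H j) * √(e (j + 1))) n₀ I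
  have h3 : ∑ i ∈ Finset.range I, ∑ j ∈ Finset.Ico (2 ^ (n₀ + i)) (2 ^ (n₀ + i + 1)),
      √(H (j + 1) - H j) * √(e (j + 1)) ≤
      ∑ i ∈ Finset.range I, 2 * √(K * ε) * √2 ^ (n₀ + i) :=
    Finset.sum_le_sum fun i _ => hblock (n₀ + i) (by omega)
  have h4 : ∑ i ∈ Finset.range I, 2 * √(K * ε) * √2 ^ (n₀ + i) ≤
      2 * √(K * ε) * (2.5 * √2 ^ (m + 1)) := by
    have h5 := geom I
    calc ∑ i ∈ Finset.range I, 2 * √(K * ε) * √2 ^ (n₀ + i)
        = 2 * √(K * ε) * √2 ^ n₀ * ∑ i ∈ Finset.range I, √2 ^ i := by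
          rw [Finset.mul_sum]
          refine Finset.sum_congr rfl fun i _ => ?_
          rw [pow_add]; ring
      _ ≤ 2 * √(K * ε) * √2 ^ n₀ * (2.5 * √2 ^ I) :=
          mul_le_mul_of_nonneg_left h5 (by positivity)
      _ = 2 * √(K * ε) * (2.5 * √2 ^ (m + 1)) := by rw [hI, pow_add]; ring
  have h6 : √2 ^ m ≤ √(n : ℝ) := by
    rw [← sqrt_two_pow]
    apply Real.sqrt_le_sqrt
    exact_mod_cast hm1
  have h7 : √2 ≤ 1.5 := by
    rw [show (1.5 : ℝ) = √(1.5 ^ 2) by rw [Real.sqrt_sq (by norm_num)]]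
    exact Real.sqrt_le_sqrt (by norm_num)
  have h8 : √2 ^ (m + 1) ≤ 1.5 * √(n : ℝ) := by
    rw [pow_succ]
    calc √2 ^ m * √2 ≤ √(n : ℝ) * 1.5 := mul_le_mul h6 h7 (Real.sqrt_nonneg _) (Real.sqrt_nonneg _)
      _ = 1.5 * √(n : ℝ) := by ring
  have h9 : 0 ≤ √(K * ε) := Real.sqrt_nonneg _
  have h10 : 0 ≤ √(n : ℝ) := Real.sqrt_nonneg _
  calc ∑ j ∈ Finset.range n, √(H (j + 1) - H j) * √(e (j + 1))
      ≤ T + 2 * √(K * ε) * (2.5 * √2 ^ (m + 1)) := by
        rw [h2] at h1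
        linarith
    _ ≤ √(K * ε) * √(n : ℝ) + 2 * √(K * ε) * (2.5 * (1.5 * √(n : ℝ))) := by
        have := mul_le_mul_of_nonneg_left h8 h9
        linarith
    _ ≤ 20 * √(K * ε) * √(n : ℝ) := by nlinarith [mul_nonneg h9 h10]

end Pool.Agent.Helper33.Qip
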